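import Pool.Agent.H69.BG.X.Pie2
import Pool.Agent.H69.LB.Fin

/-!
# FIN2: the theorem for an abstract system of zeros, beyond the GRH barrier

Copy of Pool/Agent/H69/LB/Fin.lean (`lower_sum`, `growth2`, `main_aux`, `main`), with `bP (χ j) (P j) T α` replaced by `b12 φ lam (χ j) M (P j) T α` and `piece` by `piece2`.
* `b12` vanishes where `χ (ξ - α log T) = 0` (both summands do), it is continuous with compact support (`bP_continuous`, `b2_continuous`, `b2_compact`,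
  `HH P T α = P.cH T^(α-1) > 0`), so the private lemmas `bS`, `norm_bS`, `PsiF_bS`, `int_bS`, `lower_sum` go through verbatim: at each `ξ` at most one summand is nonzero.
* Let `(c, lam, φ)` be from `piece2 Z`; put `c0 = min c 1`, `e = min (c0 / 100) (uu / 4)`, so `0 < e ≤ 1/100`, `e ≤ uu/2`. `exists_pieces` with `τ = e`; `P_j = ⟨e, e, e, 2π e^{s_{j+1}}/(1-e)⟩`
  (fields `κ ε δ cH`; `Ok`, `δ = e < 1/4`, `ε = e ≤ uu/2`); `M = 1 + ∑_{j ≤ n} |s j|` (so `-M ≤ s j ≤ M` for all `j ≤ n`).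
  `∑ rho_j ≥ (1-e)²/(1+2e) (1-6e) ≥ 1 - 10 e` as in `main_aux`. For `α ∈ [1, 1+uu]`, `D = 3/2 - α - e + c > 0` (`uu` is tiny).
  Replace `c` by `c0` first (`c0 ≤ c`, `rho ≥ 0`, `log T ≥ 0`), so `D = 3/2 - α - e + c0 ≤ 3/2`:
  `FFz ≥ (1 - 10e) D - e ≥ D - 15 e - e ≥ 3/2 - α + c0 - 17 e ≥ 3/2 - α + c0/2` for `T` large (`growth2` with `δ := e`).
* `main2`: `α ∈ [-1-uu, -1]` by `FFz_neg`.
-/

open Filter Finset H69LB

namespace H69BG

private theorem Fin2_comp {s t y : ℝ} {b : ℝ → ℂ} (h : ∀ ξ, b ξ ≠ 0 → s < ξ - y ∧ ξ - y < t) :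
    HasCompactSupport b := by
  refine HasCompactSupport.intro (K := Set.Icc (s + y) (t + y)) isCompact_Icc fun ξ hξ => ?_
  by_contra hcon
  obtain ⟨h1, h2⟩ := h ξ hcon
  exact hξ ⟨by linarith, by linarith⟩

private theorem Fin2_norm {n : ℕ} {s : ℕ → ℝ} (hs : Monotone s) {y : ℝ} {b : ℕ → ℝ → ℂ}
    (h : ∀ j < n, ∀ ξ, b j ξ ≠ 0 → s j < ξ - y ∧ ξ - y < s (j + 1)) (ξ : ℝ) :
    ‖∑ j ∈ range n, b j ξ‖ ^ 2 = ∑ j ∈ range n, ‖b j ξ‖ ^ 2 := by
  by_cases hex : ∃ j ∈ range n, b j ξ ≠ 0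
  · obtain ⟨j0, hj0, hne⟩ := hex
    have hz : ∀ j ∈ range n, j ≠ j0 → b j ξ = 0 := by
      intro j hj hjj
      by_contra hcon
      rw [Finset.mem_range] at hj hj0
      obtain ⟨h1, h2⟩ := h j hj ξ hcon
      obtain ⟨h3, h4⟩ := h j0 hj0 ξ hne
      rcases lt_or_gt_of_ne hjj with hlt | hlt
      · have := hs (show j + 1 ≤ j0 by omega)
        linarith
      · have := hs (show j0 + 1 ≤ j by omega)
        linarith
    rw [Finset.sum_eq_single_of_mem j0 hj0 hz, Finset.sum_eq_single_of_mem j0 hj0]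
    intro j hj hjj
    rw [hz j hj hjj]
    simp
  · push Not at hex
    rw [Finset.sum_eq_zero hex, Finset.sum_eq_zero]
    · simp
    · intro j hj
      rw [hex j hj]
      simp

private theorem Fin2_Psi {n : ℕ} {b : ℕ → ℝ → ℂ} (hb : ∀ j < n, Continuous (b j))
    (hc : ∀ j < n, HasCompactSupport (b j)) (y g : ℝ) :
    PsiF (Fof (fun ξ => ∑ j ∈ range n, b j ξ) y) g = ∑ j ∈ range n, PsiF (Fof (b j) y) g := by
  unfold PsiF
  rw [← MeasureTheory.integral_finsetSum]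
  · refine MeasureTheory.integral_congr_ae (Filter.Eventually.of_forall fun ξ => ?_)
    simp only [Fof, map_sum, Finset.mul_sum, Finset.sum_mul]
  · intro j hj
    have hcj := hb j (Finset.mem_range.1 hj)
    refine Continuous.integrable_of_hasCompactSupport ?_ ?_
    · unfold Fof
      fun_prop
    · refine (hc j (Finset.mem_range.1 hj)).mono fun ξ hξ => ?_
      rw [Function.mem_support] at hξ ⊢
      intro h0
      apply hξ
      simp [Fof, h0]

private theorem Fin2_int {n : ℕ} {s : ℕ → ℝ} (hs : Monotone s) {y : ℝ} {b : ℕ → ℝ → ℂ}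
    (hb : ∀ j < n, Continuous (b j))
    (h : ∀ j < n, ∀ ξ, b j ξ ≠ 0 → s j < ξ - y ∧ ξ - y < s (j + 1)) :
    ∫ ξ, ‖∑ j ∈ range n, b j ξ‖ ^ 2 = ∑ j ∈ range n, ∫ ξ, ‖b j ξ‖ ^ 2 := by
  rw [← MeasureTheory.integral_finsetSum]
  · refine MeasureTheory.integral_congr_ae (Filter.Eventually.of_forall fun ξ => ?_)
    exact Fin2_norm hs h ξ
  · intro j hj
    have hcj := hb j (Finset.mem_range.1 hj)
    refine Continuous.integrable_of_hasCompactSupport (by fun_prop) ?_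
    refine (Fin2_comp (h j (Finset.mem_range.1 hj))).mono fun ξ hξ => ?_
    rw [Function.mem_support] at hξ ⊢
    intro h0
    apply hξ
    simp [h0]

private theorem Fin2_lower {ι : Type} {γ w : ι → ℝ} {F : ℝ → Finset ι} {n : ℕ} {s : ℕ → ℝ}
    (hs : Monotone s) {T α : ℝ} (hT : 1 < T) {b : ℕ → ℝ → ℂ} (hb : ∀ j < n, Continuous (b j))
    (h : ∀ j < n, ∀ ξ, b j ξ ≠ 0 → s j < ξ - α * Real.log T ∧ ξ - α * Real.log T < s (j + 1)) :
    ∑ j ∈ range n,
      (2 * (∑ i ∈ F T, (w i : ℂ) * PsiF (Fof (b j) (α * Real.log T)) (γ i)).re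
          - 2 * Real.pi * ∫ ξ, ‖b j ξ‖ ^ 2) ≤ FFz γ w F T α * (T * Real.log T) := by
  have hcont : Continuous (fun ξ => ∑ j ∈ range n, b j ξ) := by
    refine continuous_finsetSum _ fun j hj => ?_
    exact hb j (Finset.mem_range.1 hj)
  have hcomp : HasCompactSupport (fun ξ => ∑ j ∈ range n, b j ξ) := by
    refine HasCompactSupport.intro (K := Set.Icc (s 0 + α * Real.log T) (s n + α * Real.log T))
      isCompact_Icc fun ξ hξ => ?_
    refine Finset.sum_eq_zero fun j hj => ?_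
    rw [Finset.mem_range] at hj
    by_contra hcon
    obtain ⟨h1, h2⟩ := h j hj ξ hcon
    have h3 := hs (Nat.zero_le j)
    have h4 := hs (show j + 1 ≤ n by omega)
    exact hξ ⟨by linarith, by linarith⟩
  have hd := dual (γ := γ) (w := w) (F := F) (α := α) hT hcont hcomp
  refine le_trans (le_of_eq ?_) hd
  rw [Fin2_int hs hb h, Finset.sum_sub_distrib, Finset.mul_sum, ← Finset.mul_sum _ _ (2 : ℝ)]
  congr 2
  rw [← Complex.re_sum, Finset.sum_comm]
  congr 1
  refine Finset.sum_congr rfl fun i _ => ?_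
  rw [Fin2_Psi hb (fun j hj => Fin2_comp (h j hj)), Finset.mul_sum]

private theorem Fin2_growth {δ C : ℝ} (hδ : 0 < δ) :
    ∀ᶠ T : ℝ in atTop, 1 < T ∧ C * Real.log (Real.log T) + C ≤ δ * Real.log T := by
  have h1 : ∀ᶠ T : ℝ in atTop, 1 < T := eventually_gt_atTop 1
  have h2 : ∀ᶠ y : ℝ in atTop, ‖Real.log y‖ ≤ (δ / 2 / (|C| + 1)) * ‖y‖ := by
    have := (Real.isLittleO_log_id_atTop).bound (show 0 < δ / 2 / (|C| + 1) by positivity)
    simpa using this
  have h3 : ∀ᶠ T : ℝ in atTop, ‖Real.log (Real.log T)‖ ≤ (δ / 2 / (|C| + 1)) * ‖Real.log T‖ :=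
    Real.tendsto_log_atTop.eventually h2
  have h4 : ∀ᶠ T : ℝ in atTop, 2 * |C| / δ ≤ Real.log T :=
    Real.tendsto_log_atTop.eventually_ge_atTop _
  filter_upwards [h1, h3, h4] with T h1 h3 h4
  refine ⟨h1, ?_⟩
  have hL : 0 < Real.log T := Real.log_pos h1
  rw [Real.norm_of_nonneg hL.le, div_mul_eq_mul_div, le_div_iff₀ (by positivity), Real.norm_eq_abs] at h3
  rw [div_le_iff₀ hδ] at h4
  have h5 : C * Real.log (Real.log T) ≤ |C| * |Real.log (Real.log T)| := by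
    rw [← abs_mul]; exact le_abs_self _
  have h6 : C ≤ |C| := le_abs_self C
  have h7 : |C| * |Real.log (Real.log T)| ≤ |Real.log (Real.log T)| * (|C| + 1) := by
    nlinarith [abs_nonneg (Real.log (Real.log T))]
  linarith

private theorem Fin2_b12_supp {φ : ℝ → ℝ} {lam : ℝ} {χ : ℝ → ℝ} {η1 η2 : ℝ} (h : Pc η1 η2 χ) {M : ℝ}
    {P : Par} {T α ξ : ℝ} (hξ : b12 φ lam χ M P T α ξ ≠ 0) :
    η1 < ξ - α * Real.log T ∧ ξ - α * Real.log T < η2 := by
  by_contra hcon
  rw [not_and_or, not_lt, not_lt] at hcon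
  have h0 := h.zero _ hcon
  exact hξ (by simp [b12, bP, b2, h0])

private theorem Fin2_b12_cont {φ : ℝ → ℝ} (hφ : PH φ) {lam : ℝ} {χ : ℝ → ℝ} {η1 η2 : ℝ} (h : Pc η1 η2 χ)
    {M : ℝ} {P : Par} {T α : ℝ} (hH : 0 < HH P T α) : Continuous (b12 φ lam χ M P T α) := by
  have h1 := bP_continuous h P T α
  have h2 := b2_continuous hφ h M P hH
  unfold b12
  fun_prop

private theorem Fin2_rho_nonneg {P : Par} (hP : P.Ok) {η2 : ℝ} {χ : ℝ → ℝ} (hχ : ∀ η, 0 ≤ χ η) :
    0 ≤ rho P η2 χ := by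
  have h1 : 0 ≤ ∫ η, Real.exp (-(2 * |η|)) * Real.exp η * χ η :=
    MeasureTheory.integral_nonneg fun η => mul_nonneg (by positivity) (hχ η)
  have h2 := hP.κ_pos
  unfold rho
  positivity

private theorem Fin2_aux {ι : Type} [Countable ι] {γ w : ι → ℝ} {F : ℝ → Finset ι} {A : ℝ → ℝ} {k0 : ℝ}
    (Z : Zer γ w F A k0) :
    ∃ c : ℝ, 0 < c ∧ ∀ᶠ T in atTop, 1 < T ∧ ∀ α ∈ Set.Icc (1 : ℝ) (1 + uu), 3 / 2 - α + c ≤ FFz γ w F T α := by
  obtain ⟨c, lam, φ, hc, hφ, hp⟩ := piece2 Z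
  set c0 := min c 1 with hc0
  have hc0pos : 0 < c0 := lt_min hc one_pos
  have hc0c : c0 ≤ c := min_le_left _ _
  have hc01 : c0 ≤ 1 := min_le_right _ _
  have huu : uu = 1 / 100000 := rfl
  set e := min (c0 / 100) (uu / 4) with hedef
  have he : 0 < e := lt_min (by positivity) (by rw [huu]; norm_num)
  have he1 : e ≤ c0 / 100 := min_le_left _ _
  have he2 : e ≤ uu / 4 := min_le_right _ _
  have he' : e ≤ 1 / 100 := by linarith
  refine ⟨c0 / 2, by positivity, ?_⟩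
  obtain ⟨n, s, χ, hs, hPc, hsum⟩ := exists_pieces he (by linarith)
  set P : ℕ → Par := fun j => ⟨e, e, e, 2 * Real.pi * Real.exp (s (j + 1)) / (1 - e)⟩ with hPdef
  have h1e : 0 < 1 - e := by linarith
  have hOk : ∀ j, (P j).Ok := by
    intro j
    refine ⟨he, by simp only [hPdef]; linarith, he, by simp only [hPdef]; linarith, he,
      by simp only [hPdef]; linarith, ?_⟩
    simp only [hPdef]
    have := Real.pi_pos
    have := Real.exp_pos (s (j + 1))
    positivity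
  set M : ℝ := 1 + ∑ j ∈ range (n + 1), |s j| with hM
  have hM0 : 0 ≤ ∑ j ∈ range (n + 1), |s j| := Finset.sum_nonneg fun j _ => abs_nonneg _
  have hMs : ∀ j ≤ n, |s j| ≤ M := by
    intro j hj
    have := Finset.single_le_sum (f := fun j => |s j|) (fun j _ => abs_nonneg _)
      (Finset.mem_range.2 (show j < n + 1 by omega))
    linarith
  have hpiece : ∀ j, ∃ C T0 : ℝ, j < n → 0 ≤ C ∧ ∀ T, T0 ≤ T → ∀ α ∈ Set.Icc (1 : ℝ) (1 + uu),
      T * (rho (P j) (s (j + 1)) (χ j) * ((3 / 2 - α - (P j).ε + c) * Real.log T) -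
          C * Real.log (Real.log T) - C)
        ≤ 2 * (∑ i ∈ F T, (w i : ℂ) * PsiF (Fof (b12 φ lam (χ j) M (P j) T α) (α * Real.log T)) (γ i)).re
          - 2 * Real.pi * ∫ ξ, ‖b12 φ lam (χ j) M (P j) T α ξ‖ ^ 2 := by
    intro j
    by_cases hj : j < n
    · obtain ⟨C, T0, h1, h2⟩ := hp (s j) (s (j + 1)) (χ j) (P j) M (hPc j hj) (hOk j)
        (by simp only [hPdef]; linarith) (by simp only [hPdef]; linarith) rfl (by linarith)
        (neg_le_of_abs_le (hMs j hj.le)) (le_of_abs_le (hMs (j + 1) hj))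
      exact ⟨C, T0, fun _ => ⟨h1, h2⟩⟩
    · exact ⟨0, 0, fun h => absurd h hj⟩
  choose C T0 hC using hpiece
  have hev : ∀ᶠ T : ℝ in atTop, ∀ j ∈ Finset.range n, T0 j ≤ T :=
    (Finset.eventually_all _).2 fun j _ => eventually_ge_atTop (T0 j)
  set C' : ℝ := ∑ j ∈ Finset.range n, C j with hC'
  filter_upwards [hev, Fin2_growth (C := C') he] with T hT1 hT2
  obtain ⟨hT, hgr⟩ := hT2
  refine ⟨hT, fun α hα => ?_⟩
  have hL : 0 < Real.log T := Real.log_pos hT
  have hTpos : 0 < T := by linarith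
  set D := 3 / 2 - α - e + c0 with hD
  have hα1 := hα.1
  have hα2 := hα.2
  have hD0 : 0 < D := by
    rw [huu] at hα2
    rw [hD]
    linarith
  have hD1 : D ≤ 3 / 2 := by
    rw [hD]
    linarith
  have hlow := Fin2_lower (γ := γ) (w := w) (F := F) (n := n) hs (α := α) hT
    (b := fun j => b12 φ lam (χ j) M (P j) T α)
    (fun j hj => Fin2_b12_cont hφ (hPc j hj) (by
      unfold HH
      have := (hOk j).cH_pos
      positivity))
    (fun j hj ξ hξ => Fin2_b12_supp (hPc j hj) hξ)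
  have hlow2 : ∑ j ∈ Finset.range n, T * (rho (P j) (s (j + 1)) (χ j) * (D * Real.log T) -
      C j * Real.log (Real.log T) - C j) ≤ FFz γ w F T α * (T * Real.log T) := by
    refine le_trans (Finset.sum_le_sum fun j hj => ?_) hlow
    have hj' := Finset.mem_range.1 hj
    refine le_trans ?_ ((hC j hj').2 T (hT1 j hj) α hα)
    have hr := Fin2_rho_nonneg (hOk j) (η2 := s (j + 1)) (hPc j hj').nonneg
    have hε : (P j).ε = e := rfl
    rw [hε]
    have h1 : D * Real.log T ≤ (3 / 2 - α - e + c) * Real.log T := by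
      refine mul_le_mul_of_nonneg_right ?_ hL.le
      rw [hD]
      linarith
    have h2 := mul_le_mul_of_nonneg_left h1 hr
    refine mul_le_mul_of_nonneg_left ?_ hTpos.le
    linarith
  -- the sum of the weights
  set S := ∑ j ∈ Finset.range n, rho (P j) (s (j + 1)) (χ j) with hS
  have hS1 : 1 - 10 * e ≤ S := by
    have h2 : S = (1 - e) ^ 2 / (1 + 2 * e) * ∑ j ∈ Finset.range n,
        Real.exp (-(s (j + 1))) * ∫ η, Real.exp (-(2 * |η|)) * Real.exp η * χ j η := by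
      rw [hS, Finset.mul_sum]
      refine Finset.sum_congr rfl fun j _ => ?_
      simp only [rho, hPdef]
      ring
    rw [h2]
    have h3 : 0 ≤ (1 - e) ^ 2 / (1 + 2 * e) := by positivity
    refine le_trans ?_ (mul_le_mul_of_nonneg_left hsum h3)
    rw [div_mul_eq_mul_div, le_div_iff₀ (by positivity)]
    nlinarith [mul_pos he he, mul_pos (mul_pos he he) he]
  have hsumeq : ∑ j ∈ Finset.range n, T * (rho (P j) (s (j + 1)) (χ j) * (D * Real.log T) -
      C j * Real.log (Real.log T) - C j) =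
      T * (S * (D * Real.log T) - (C' * Real.log (Real.log T) + C')) := by
    rw [← Finset.mul_sum, Finset.sum_sub_distrib, Finset.sum_sub_distrib, ← Finset.sum_mul,
      ← Finset.sum_mul, ← hS, ← hC']
    ring
  rw [hsumeq] at hlow2
  have h5 : S * (D * Real.log T) - (C' * Real.log (Real.log T) + C') ≤ FFz γ w F T α * Real.log T := by
    have h6 : T * (S * (D * Real.log T) - (C' * Real.log (Real.log T) + C')) ≤
        T * (FFz γ w F T α * Real.log T) := by linarith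
    exact le_of_mul_le_mul_left h6 hTpos
  have h7 : (D - 15 * e) * Real.log T ≤ S * (D * Real.log T) := by
    have h8 : D - 15 * e ≤ S * D := by nlinarith
    nlinarith
  have h9 : (D - 15 * e - e) * Real.log T ≤ FFz γ w F T α * Real.log T := by linarith
  have h10 := le_of_mul_le_mul_right h9 hL
  linarith

theorem main2 {ι : Type} [Countable ι] {γ w : ι → ℝ} {F : ℝ → Finset ι} {A : ℝ → ℝ} {k0 : ℝ}
    (Z : Zer γ w F A k0) :
    ∃ c : ℝ, 0 < c ∧ ∀ᶠ T in atTop, ∀ α : ℝ, 1 ≤ |α| → |α| ≤ 1 + uu → 3 / 2 - |α| + c ≤ FFz γ w F T α := by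
  obtain ⟨c, hc, h⟩ := Fin2_aux Z
  refine ⟨c, hc, ?_⟩
  filter_upwards [h] with T hT α hα hα2
  obtain ⟨-, h1⟩ := hT
  have habs : FFz γ w F T α = FFz γ w F T |α| := by
    rcases abs_choice α with h | h
    · rw [h]
    · rw [h, FFz_neg]
  rw [habs]
  exact h1 |α| ⟨hα, hα2⟩

end H69BG
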