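import Mathlib
import Pool.Agent.H69.LB.BrgL
import Pool.Agent.H69.BG.X.Fin2

/-!
# The lower bound beyond the GRH barrier for the zeros of zeta
-/

open Filter Topology
open Pool.Agent Pool.Agent.H6

namespace H69BG

/-- RH implies `F(α, T) ≥ 3/2 - |α| + c` for `T` large, uniformly in `1 ≤ |α| ≤ 1 + 10⁻⁵`, with a constant `c > 0` -/
theorem lb_FF2 (hRH : RiemannHypothesis) :
    ∃ c : ℝ, 0 < c ∧ ∀ᶠ T in atTop, ∀ α : ℝ, 1 ≤ |α| → |α| ≤ 1 + 1 / 100000 →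
      3 / 2 - |α| + c ≤ H69LB.FFz gZ wZ FZ T α := by
  obtain ⟨c, hc, h⟩ := main2 (H69LB.zer hRH)
  exact ⟨c, hc, h⟩

end H69BG
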