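import Pool.Agent.H69.BG.Phk
import Pool.Agent.H69.LB.Zta

/-!
# LIN: the quadratic expansion of the lower bound for `b1 + λ b2`

* `b2_continuous`, `b2_compact`: as `H69LB.bP_continuous`, `H69LB.bP_compact` (Pool/Agent/H69/LB/Zta.lean); `be2 φ M x H` is a finite sum of translates
  of `Ph φ H`, which is continuous (`Ph_smooth`), composed with `exp`.
* `comb`: `Fof (b1 + λ b2) y = Fof b1 y + λ Fof b2 y` (`λ` real, `conj λ = λ`), so `PsiF` is additive (integrals of continuous functions with compact support: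
  `Continuous.integrable_of_hasCompactSupport`; the exponential factor has norm 1, is continuous), and
  `‖b1 + λ b2‖² = ‖b1‖² + 2 λ Re (b1 conj b2) + λ² ‖b2‖²` (`Complex.sq_norm_add` / `Complex.normSq_add`), integrate termwise (`integral_re`).
-/

open Finset H69LB MeasureTheory
open scoped ContDiff

namespace H69BG

theorem b2_continuous {φ : ℝ → ℝ} (hφ : PH φ) {η1 η2 : ℝ} {χ : ℝ → ℝ} (h : Pc η1 η2 χ) (M : ℝ) (P : Par) {T α : ℝ}
    (hH : 0 < HH P T α) : Continuous (b2 φ χ M P T α) := by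
  have hχ : Continuous χ := h.smooth.continuous
  have hPh : Continuous (Ph φ (HH P T α)) := (Ph_smooth hφ hH).continuous
  have hbe : Continuous (be2 φ M (T ^ α) (HH P T α)) := by
    unfold be2
    refine continuous_finsetSum _ fun m _ => continuous_const.mul ?_
    exact hPh.comp (continuous_id.sub continuous_const)
  have h1 : Continuous fun ξ : ℝ => be2 φ M (T ^ α) (HH P T α) (Real.exp ξ) := hbe.comp Real.continuous_exp
  have h2 : Continuous fun ξ : ℝ =>
      ((Real.exp (ξ / 2) * Real.exp (-|ξ - α * Real.log T|) * χ (ξ - α * Real.log T) : ℝ) : ℂ) := by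
    fun_prop
  have h3 : b2 φ χ M P T α = fun ξ =>
      -(((Real.exp (ξ / 2) * Real.exp (-|ξ - α * Real.log T|) * χ (ξ - α * Real.log T) : ℝ) : ℂ) *
    be2 φ M (T ^ α) (HH P T α) (Real.exp ξ)) := rfl
  rw [h3]
  exact (h2.mul h1).neg

theorem b2_compact {φ : ℝ → ℝ} {η1 η2 : ℝ} {χ : ℝ → ℝ} (h : Pc η1 η2 χ) (M : ℝ) (P : Par) (T α : ℝ) :
    HasCompactSupport (b2 φ χ M P T α) := by
  refine HasCompactSupport.intro (isCompact_Icc (a := α * Real.log T + η1)
    (b := α * Real.log T + η2)) fun ξ hξ => ?_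
  have h0 : χ (ξ - α * Real.log T) = 0 := by
    refine h.zero _ ?_
    by_contra hc
    push Not at hc
    exact hξ ⟨by linarith [hc.1], by linarith [hc.2]⟩
  unfold b2
  rw [h0, mul_zero, Complex.ofReal_zero, zero_mul, neg_zero]

private theorem Lin_int {b : ℝ → ℂ} (hb : Continuous b) (hbc : HasCompactSupport b) (y g : ℝ) :
    Integrable fun ξ => Fof b y ξ * Complex.exp (Complex.I * ((ξ * g : ℝ) : ℂ)) := by
  have hc : Continuous fun ξ => Fof b y ξ * Complex.exp (Complex.I * ((ξ * g : ℝ) : ℂ)) := by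
    unfold Fof
    have h1 : Continuous fun ξ => (starRingEnd ℂ) (b ξ) := Complex.continuous_conj.comp hb
    have h2 : Continuous fun ξ : ℝ => ((Real.exp (-|ξ - y|) : ℝ) : ℂ) := by fun_prop
    have h3 : Continuous fun ξ : ℝ => Complex.exp (Complex.I * ((ξ * g : ℝ) : ℂ)) := by fun_prop
    exact ((continuous_const.mul h2).mul h1).mul h3
  refine hc.integrable_of_hasCompactSupport ?_
  refine hbc.mono' ?_
  intro ξ hξ
  refine subset_closure ?_
  rw [Function.mem_support] at hξ ⊢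
  intro h0
  apply hξ
  unfold Fof
  rw [h0, map_zero, mul_zero, zero_mul]

private theorem Lin_PsiF {b c : ℝ → ℂ} (hb : Continuous b) (hbc : HasCompactSupport b)
    (hc : Continuous c) (hcc : HasCompactSupport c) (lam y g : ℝ) :
    PsiF (Fof (fun ξ => b ξ + lam * c ξ) y) g = PsiF (Fof b y) g + lam * PsiF (Fof c y) g := by
  have h1 := Lin_int hb hbc y g
  have h2 := (Lin_int hc hcc y g).const_mul (lam : ℂ)
  unfold PsiF
  rw [← integral_const_mul, ← integral_add h1 h2]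
  refine integral_congr_ae (Filter.Eventually.of_forall fun ξ => ?_)
  simp only
  unfold Fof
  rw [map_add, map_mul, Complex.conj_ofReal]
  ring

private theorem Lin_norm {b c : ℝ → ℂ} (hb : Continuous b) (hbc : HasCompactSupport b)
    (hc : Continuous c) (hcc : HasCompactSupport c) (lam : ℝ) :
    ∫ ξ, ‖b ξ + lam * c ξ‖ ^ 2 = (∫ ξ, ‖b ξ‖ ^ 2) +
      2 * lam * (∫ ξ, b ξ * (starRingEnd ℂ) (c ξ)).re + lam ^ 2 * ∫ ξ, ‖c ξ‖ ^ 2 := by
  have hib : Integrable fun ξ => ‖b ξ‖ ^ 2 := by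
    refine (hb.norm.pow 2).integrable_of_hasCompactSupport ?_
    refine hbc.mono' fun ξ hξ => subset_closure ?_
    rw [Function.mem_support] at hξ ⊢
    intro h0
    apply hξ
    show ‖b ξ‖ ^ 2 = 0
    rw [h0, norm_zero]
    norm_num
  have hic : Integrable fun ξ => ‖c ξ‖ ^ 2 := by
    refine (hc.norm.pow 2).integrable_of_hasCompactSupport ?_
    refine hcc.mono' fun ξ hξ => subset_closure ?_
    rw [Function.mem_support] at hξ ⊢
    intro h0
    apply hξ
    show ‖c ξ‖ ^ 2 = 0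
    rw [h0, norm_zero]
    norm_num
  have hibc : Integrable fun ξ => b ξ * (starRingEnd ℂ) (c ξ) := by
    refine (hb.mul (Complex.continuous_conj.comp hc)).integrable_of_hasCompactSupport ?_
    refine hbc.mono' fun ξ hξ => subset_closure ?_
    rw [Function.mem_support] at hξ ⊢
    intro h0
    apply hξ
    show b ξ * (starRingEnd ℂ) (c ξ) = 0
    rw [h0, zero_mul]
  have hre : (∫ ξ, b ξ * (starRingEnd ℂ) (c ξ)).re = ∫ ξ, (b ξ * (starRingEnd ℂ) (c ξ)).re :=
    (Complex.reCLM.integral_comp_comm hibc).symm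
  have hire : Integrable fun ξ => (b ξ * (starRingEnd ℂ) (c ξ)).re := hibc.re
  have hpt : ∀ ξ, ‖b ξ + lam * c ξ‖ ^ 2 = ‖b ξ‖ ^ 2 + 2 * lam * (b ξ * (starRingEnd ℂ) (c ξ)).re +
      lam ^ 2 * ‖c ξ‖ ^ 2 := by
    intro ξ
    rw [Complex.sq_norm, Complex.sq_norm, Complex.sq_norm, Complex.normSq_add, Complex.normSq_mul,
      Complex.normSq_ofReal, map_mul, Complex.conj_ofReal]
    have : (b ξ * ((lam : ℂ) * (starRingEnd ℂ) (c ξ))).re = lam * (b ξ * (starRingEnd ℂ) (c ξ)).re := by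
      rw [← Complex.re_ofReal_mul]
      congr 1
      ring
    rw [this]
    ring
  rw [hre, integral_congr_ae (Filter.Eventually.of_forall hpt), integral_add, integral_add,
    integral_const_mul, integral_const_mul]
  · exact hib
  · exact hire.const_mul _
  · exact hib.add (hire.const_mul _)
  · exact hic.const_mul _

theorem comb {ι : Type} {γ w : ι → ℝ} (s : Finset ι) {b c : ℝ → ℂ} (hb : Continuous b) (hbc : HasCompactSupport b)
    (hc : Continuous c) (hcc : HasCompactSupport c) (lam y : ℝ) :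
    2 * (∑ i ∈ s, (w i : ℂ) * PsiF (Fof (fun ξ => b ξ + lam * c ξ) y) (γ i)).re - 2 * Real.pi * ∫ ξ, ‖b ξ + lam * c ξ‖ ^ 2 =
      (2 * (∑ i ∈ s, (w i : ℂ) * PsiF (Fof b y) (γ i)).re - 2 * Real.pi * ∫ ξ, ‖b ξ‖ ^ 2) +
      2 * lam * (∑ i ∈ s, (w i : ℂ) * PsiF (Fof c y) (γ i)).re -
      4 * Real.pi * lam * (∫ ξ, b ξ * (starRingEnd ℂ) (c ξ)).re - 2 * Real.pi * lam ^ 2 * ∫ ξ, ‖c ξ‖ ^ 2 := by
  have h1 : ∑ i ∈ s, (w i : ℂ) * PsiF (Fof (fun ξ => b ξ + lam * c ξ) y) (γ i) =
      (∑ i ∈ s, (w i : ℂ) * PsiF (Fof b y) (γ i)) + (lam : ℂ) * ∑ i ∈ s, (w i : ℂ) * PsiF (Fof c y) (γ i) := by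
    rw [Finset.mul_sum, ← Finset.sum_add_distrib]
    refine Finset.sum_congr rfl fun i _ => ?_
    rw [Lin_PsiF hb hbc hc hcc]
    ring
  rw [h1, Lin_norm hb hbc hc hcc, Complex.add_re, Complex.re_ofReal_mul]
  ring

end H69BG
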