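import Pool.Agent.H69.BG.Ana
import Pool.Agent.H69.LB.Hsm

/-!
# LLY: the size of `LL (yy x)`

* `LL_yy_le`: each term of `LL R` is at most `1` (`μ² ≤ 1`, `φ(q) ≥ 1` for `q ≥ 1`), so `LL R ≤ R`, and `yy x = ⌊x^{2u}⌋ ≤ x^{2u}`.
* `LL_yy_ge`: `H69LB.hsum_lower` with `z1 = 1`, `z2 = yy x ≥ 1`: `log (yy x) - C ≤ ∑_{r ∈ (Ioc 1 (yy x)).filter Squarefree} 1/φ(r) ≤ LL (yy x)`
  (for squarefree `r`, `μ(r)² = 1`; the other terms of `LL` are `≥ 0`). `yy x ≥ x^{2u}/2`, so `log (yy x) ≥ 2u log x - log 2`,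
  `x = T^α`, `log x = α log T ≥ log T`: `LL ≥ 2u log T - log 2 - C ≥ u log T` for `T` large.
-/

open Finset H69LB

namespace H69BG

theorem X_LLY_nonneg (R : ℕ) : 0 ≤ LL R := by
  unfold LL
  exact Finset.sum_nonneg fun q _ => by positivity

theorem LL_yy_le {x : ℝ} (hx : 1 ≤ x) : LL (yy x) ≤ x ^ (2 * uu) := by
  have hx0 : (0 : ℝ) ≤ x ^ (2 * uu) := Real.rpow_nonneg (by linarith) _
  have h1 : LL (yy x) ≤ (yy x : ℝ) := by
    unfold LL
    calc ∑ q ∈ Icc 1 (yy x), (ArithmeticFunction.moebius q : ℝ) ^ 2 / (Nat.totient q : ℝ)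
        ≤ ∑ q ∈ Icc 1 (yy x), (1 : ℝ) := by
          refine Finset.sum_le_sum fun q hq => ?_
          have hq1 : 1 ≤ q := (Finset.mem_Icc.1 hq).1
          have hφ : (1 : ℝ) ≤ (Nat.totient q : ℝ) := by exact_mod_cast Nat.totient_pos.2 hq1
          have hμ : (ArithmeticFunction.moebius q : ℝ) ^ 2 ≤ 1 := by
            have h := ArithmeticFunction.abs_moebius_le_one (n := q)
            have h2 : |(ArithmeticFunction.moebius q : ℝ)| ≤ 1 := by exact_mod_cast h
            rw [← sq_abs]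
            exact pow_le_one₀ (abs_nonneg _) h2
          rw [div_le_one (by linarith)]
          linarith
      _ = (yy x : ℝ) := by simp
  have h2 : (yy x : ℝ) ≤ x ^ (2 * uu) := by
    unfold yy
    exact Nat.floor_le hx0
  linarith

theorem LL_yy_ge : ∃ T0 : ℝ, ∀ T, T0 ≤ T → ∀ α : ℝ, 1 ≤ α → uu * Real.log T ≤ LL (yy (T ^ α)) := by
  obtain ⟨C, hC0, hC⟩ := hsum_lower
  have hu : (0 : ℝ) < uu := by unfold uu; norm_num
  have key : ∀ R : ℕ, 1 ≤ R → Real.log (R : ℝ) - C ≤ LL R := by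
    intro R hR
    have h := hC 1 R le_rfl hR
    have h1 : ∑ r ∈ (Ioc 1 R).filter Squarefree, ((Nat.totient r : ℝ))⁻¹ ≤ LL R := by
      unfold LL
      calc ∑ r ∈ (Ioc 1 R).filter Squarefree, ((Nat.totient r : ℝ))⁻¹
          = ∑ r ∈ (Ioc 1 R).filter Squarefree,
              (ArithmeticFunction.moebius r : ℝ) ^ 2 / (Nat.totient r : ℝ) := by
            refine Finset.sum_congr rfl fun r hr => ?_
            have hsq : Squarefree r := (Finset.mem_filter.1 hr).2
            have h2 : (ArithmeticFunction.moebius r : ℝ) ^ 2 = 1 := by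
              have := ArithmeticFunction.moebius_sq_eq_one_of_squarefree hsq
              exact_mod_cast this
            rw [h2, one_div]
        _ ≤ _ := by
            refine Finset.sum_le_sum_of_subset_of_nonneg ?_ ?_
            · intro r hr
              have := Finset.mem_Ioc.1 (Finset.mem_filter.1 hr).1
              exact Finset.mem_Icc.2 ⟨by omega, this.2⟩
            · intro r _ _
              positivity
    have h3 : ((R : ℝ) / ((1 : ℕ) : ℝ)) = (R : ℝ) := by simp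
    rw [h3] at h
    linarith
  refine ⟨max 1 (Real.exp ((Real.log 2 + C) / uu)), fun T hT α hα => ?_⟩
  have hT1 : 1 ≤ T := le_trans (le_max_left _ _) hT
  have hT0 : 0 < T := by linarith
  have hTe : Real.exp ((Real.log 2 + C) / uu) ≤ T := le_trans (le_max_right _ _) hT
  have hlog : (Real.log 2 + C) / uu ≤ Real.log T := by
    rw [Real.le_log_iff_exp_le hT0]
    exact hTe
  have hlog0 : 0 ≤ Real.log T := Real.log_nonneg hT1
  have hlog1 : Real.log 2 + C ≤ uu * Real.log T := by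
    rw [div_le_iff₀ hu] at hlog
    linarith
  have hx1 : 1 ≤ T ^ α := Real.one_le_rpow hT1 (by linarith)
  have hX : 1 ≤ (T ^ α) ^ (2 * uu) := Real.one_le_rpow hx1 (by linarith)
  have hy1 : 1 ≤ yy (T ^ α) := by
    unfold yy
    exact Nat.one_le_floor_iff _ |>.2 hX
  have hyr : (1 : ℝ) ≤ (yy (T ^ α) : ℝ) := by exact_mod_cast hy1
  have hylt : (T ^ α) ^ (2 * uu) < (yy (T ^ α) : ℝ) + 1 := by
    unfold yy
    exact Nat.lt_floor_add_one _
  have hyge : (T ^ α) ^ (2 * uu) / 2 ≤ (yy (T ^ α) : ℝ) := by linarith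
  have hlogy : Real.log ((T ^ α) ^ (2 * uu) / 2) ≤ Real.log (yy (T ^ α) : ℝ) :=
    Real.log_le_log (by positivity) hyge
  have hlog2 : Real.log ((T ^ α) ^ (2 * uu) / 2) = 2 * uu * (α * Real.log T) - Real.log 2 := by
    rw [Real.log_div (by positivity) (by norm_num), Real.log_rpow (by positivity), Real.log_rpow hT0]
  have hfin := key _ hy1
  have h5 : 2 * uu * Real.log T ≤ 2 * uu * (α * Real.log T) := by
    have : Real.log T ≤ α * Real.log T := by nlinarith
    exact mul_le_mul_of_nonneg_left this (by linarith)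
  linarith

end H69BG
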