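import Pool.Agent.H69.BG.Ari
import Pool.Agent.H69.BG.X.Lin
import Pool.Agent.H69.BG.X.Lly
import Pool.Agent.H83.ZS.Z2
import Pool.Agent.H69.BG.ArP
import Pool.Agent.H69.BG.ArR
import Pool.Agent.H69.BG.ArS
import Pool.Agent.H69.LB.Pie

/-!
# PIE2: the contribution of one piece with the second comparison function

`comb`, `zside2`, `ari_lam`, `F2`, `ari_nrm`, `F4`, `cro` and `piece`; the positivity is `PIE2_num`, with `lam = I0 k1/(Cp Cg²)`, `I0 = ∫ φ`.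
-/

open Finset H69LB MeasureTheory
open scoped ContDiff

namespace H69BG

/-- the comparison function `b1 + λ b2` of one piece -/
noncomputable def b12 (φ : ℝ → ℝ) (lam : ℝ) (χ : ℝ → ℝ) (M : ℝ) (P : Par) (T α ξ : ℝ) : ℂ :=
  bP χ P T α ξ + lam * b2 φ χ M P T α ξ

private theorem PIE2_num {I0 k1 K0 Cp Cg lam u lT rho d T H cH x V L ks Rl cL S2 X N2 cg E1 E2 x9 : ℝ}
    (hI0 : 0 < I0) (hk1 : 0 < k1) (hCp : 0 < Cp) (hCg : 0 < Cg) (hlam : lam = I0 * k1 / (Cp * Cg ^ 2))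
    (hT : 0 < T) (hcH : 0 < cH) (hH : cH ≤ H) (hx : 0 ≤ x) (hV : 0 ≤ V) (hL0 : 0 ≤ L) (hx9 : 0 ≤ x9)
    (hks1 : k1 ≤ ks) (hks2 : ks ≤ K0) (hS2 : 2 * Real.pi * Rl - T ≤ S2) (hRl : (1 / H * I0) * cL - E1 ≤ Rl)
    (hE1 : E1 ≤ T) (hcL : ks * L * (x * V - x9) ≤ cL) (hN2 : N2 ≤ Cp / H * cg + E2) (hE2 : E2 ≤ T)
    (hcg : cg ≤ Cg ^ 2 * L * (x * V + x9)) (hX : X ≤ T) (hL1 : u * lT ≤ L) (hL2 : L * x9 ≤ T)
    (hxH : 2 * Real.pi * (x / H) = T * d) (hrho0 : 0 ≤ rho) (hrho : rho ≤ d * V) :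
    T * (rho * (u * lam * I0 * k1 * lT)) -
        T * (8 * Real.pi * lam + 2 * lam + 2 * Real.pi * lam ^ 2 + 2 * Real.pi * lam * (2 * I0 * K0 + I0 * k1) / cH)
      ≤ 2 * lam * S2 - 4 * Real.pi * lam * X - 2 * Real.pi * lam ^ 2 * N2 := by
  have hpi := Real.pi_pos
  have hH0 : 0 < H := lt_of_lt_of_le hcH hH
  have hlam0 : 0 < lam := by rw [hlam]; positivity
  have hK0 : 0 < K0 := by linarith
  have hlC : lam * (Cp * Cg ^ 2) = I0 * k1 := by
    rw [hlam]; field_simp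
  -- step 1
  have s1 : 2 * lam * (2 * Real.pi * ((1 / H * I0) * (ks * L * (x * V - x9)) - T) - T) ≤ 2 * lam * S2 := by
    have h1 : (1 / H * I0) * (ks * L * (x * V - x9)) ≤ (1 / H * I0) * cL :=
      mul_le_mul_of_nonneg_left hcL (by positivity)
    have h2 : 2 * Real.pi * ((1 / H * I0) * (ks * L * (x * V - x9)) - T) ≤ 2 * Real.pi * Rl :=
      mul_le_mul_of_nonneg_left (by linarith) (by positivity)
    exact mul_le_mul_of_nonneg_left (by linarith) (by positivity)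
  have s2 : 2 * Real.pi * lam ^ 2 * N2 ≤ 2 * Real.pi * lam ^ 2 * (Cp / H * (Cg ^ 2 * L * (x * V + x9)) + T) := by
    have h1 : Cp / H * cg ≤ Cp / H * (Cg ^ 2 * L * (x * V + x9)) := mul_le_mul_of_nonneg_left hcg (by positivity)
    exact mul_le_mul_of_nonneg_left (by linarith) (by positivity)
  have s3 : 4 * Real.pi * lam * X ≤ 4 * Real.pi * lam * T := mul_le_mul_of_nonneg_left hX (by positivity)
  -- the bracket
  have s4 : I0 * k1 * (x * V) - (2 * I0 * K0 + I0 * k1) * x9 ≤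
      2 * I0 * ks * (x * V - x9) - I0 * k1 * (x * V + x9) := by
    have h1 : 2 * I0 * (k1 * (x * V)) ≤ 2 * I0 * (ks * (x * V)) := by
      have : k1 * (x * V) ≤ ks * (x * V) := mul_le_mul_of_nonneg_right hks1 (by positivity)
      exact mul_le_mul_of_nonneg_left this (by positivity)
    have h2 : 2 * I0 * (ks * x9) ≤ 2 * I0 * (K0 * x9) := by
      have : ks * x9 ≤ K0 * x9 := mul_le_mul_of_nonneg_right hks2 hx9
      exact mul_le_mul_of_nonneg_left this (by positivity)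
    nlinarith
  have s5 : 2 * Real.pi * lam * L / H * (I0 * k1 * (x * V) - (2 * I0 * K0 + I0 * k1) * x9) ≤
      2 * Real.pi * lam * L / H * (2 * I0 * ks * (x * V - x9) - I0 * k1 * (x * V + x9)) :=
    mul_le_mul_of_nonneg_left s4 (by positivity)
  have s6 : 2 * lam * (2 * Real.pi * ((1 / H * I0) * (ks * L * (x * V - x9)))) -
      2 * Real.pi * lam ^ 2 * (Cp / H * (Cg ^ 2 * L * (x * V + x9))) =
      2 * Real.pi * lam * L / H * (2 * I0 * ks * (x * V - x9) - I0 * k1 * (x * V + x9)) := by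
    rw [← hlC]; ring
  -- main term
  have s7 : T * (rho * (u * lam * I0 * k1 * lT)) ≤ 2 * Real.pi * lam * L / H * (I0 * k1 * (x * V)) := by
    have h1 : 2 * Real.pi * lam * L / H * (I0 * k1 * (x * V)) =
        lam * (I0 * k1) * L * V * (2 * Real.pi * (x / H)) := by ring
    rw [h1, hxH]
    have h2 : T * (rho * (u * lam * I0 * k1 * lT)) = lam * (I0 * k1) * T * (rho * (u * lT)) := by ring
    have h3 : lam * (I0 * k1) * L * V * (T * d) = lam * (I0 * k1) * T * ((d * V) * L) := by ring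
    rw [h2, h3]
    refine mul_le_mul_of_nonneg_left ?_ (by positivity)
    calc rho * (u * lT) ≤ rho * L := mul_le_mul_of_nonneg_left hL1 hrho0
      _ ≤ (d * V) * L := mul_le_mul_of_nonneg_right hrho hL0
  have s8 : 2 * Real.pi * lam * L / H * ((2 * I0 * K0 + I0 * k1) * x9) ≤
      T * (2 * Real.pi * lam * (2 * I0 * K0 + I0 * k1) / cH) := by
    have h1 : 2 * Real.pi * lam * L / H * ((2 * I0 * K0 + I0 * k1) * x9) =
        2 * Real.pi * lam * (2 * I0 * K0 + I0 * k1) * (L * x9) / H := by ring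
    have h2 : T * (2 * Real.pi * lam * (2 * I0 * K0 + I0 * k1) / cH) =
        2 * Real.pi * lam * (2 * I0 * K0 + I0 * k1) * T / cH := by ring
    rw [h1, h2]
    gcongr
  have e1 : 2 * lam * (2 * Real.pi * ((1 / H * I0) * (ks * L * (x * V - x9)) - T) - T) =
      2 * lam * (2 * Real.pi * ((1 / H * I0) * (ks * L * (x * V - x9)))) - (4 * Real.pi * lam + 2 * lam) * T := by ring
  have e2 : 2 * Real.pi * lam ^ 2 * (Cp / H * (Cg ^ 2 * L * (x * V + x9)) + T) =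
      2 * Real.pi * lam ^ 2 * (Cp / H * (Cg ^ 2 * L * (x * V + x9))) + 2 * Real.pi * lam ^ 2 * T := by ring
  rw [e1] at s1
  rw [e2] at s2
  have e3 : 2 * Real.pi * lam * L / H * (I0 * k1 * (x * V) - (2 * I0 * K0 + I0 * k1) * x9) =
      2 * Real.pi * lam * L / H * (I0 * k1 * (x * V)) - 2 * Real.pi * lam * L / H * ((2 * I0 * K0 + I0 * k1) * x9) := by ring
  rw [e3] at s5
  have e4 : T * (8 * Real.pi * lam + 2 * lam + 2 * Real.pi * lam ^ 2 + 2 * Real.pi * lam * (2 * I0 * K0 + I0 * k1) / cH) =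
      (4 * Real.pi * lam + 2 * lam) * T + 4 * Real.pi * lam * T + 2 * Real.pi * lam ^ 2 * T +
        T * (2 * Real.pi * lam * (2 * I0 * K0 + I0 * k1) / cH) := by ring
  rw [e4]
  linarith


private theorem PIE2_kst_upper : ∃ K x0 : ℝ, ∀ x, x0 ≤ x → kst x ≤ K := by
  obtain ⟨C, x0, h⟩ := kap_le
  refine ⟨C ^ 9, x0, fun x hx => ?_⟩
  unfold kst kI
  calc ∏ i ∈ range 9, kap (PP x) i ≤ ∏ i ∈ range 9, C := by
        refine Finset.prod_le_prod (fun i _ => ?_) fun i _ => h x hx i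
        unfold kap
        positivity
    _ = C ^ 9 := by simp

private theorem PIE2_rho_nonneg {η1 η2 : ℝ} {χ : ℝ → ℝ} (h : Pc η1 η2 χ) {P : Par} (hP : P.Ok) : 0 ≤ rho P η2 χ := by
  unfold rho
  have h1 := hP.κ_pos
  have h2 : 0 ≤ ∫ η, Real.exp (-(2 * |η|)) * Real.exp η * χ η :=
    integral_nonneg fun η => mul_nonneg (by positivity) (h.nonneg η)
  have h3 : 0 ≤ 1 + 2 * P.κ := by linarith
  positivity

private theorem PIE2_Wm {χ : ℝ → ℝ} : Wm (Wof χ) = ∫ η, Real.exp (-(2 * |η|)) * Real.exp η * χ η := by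
  unfold Wm
  refine integral_congr_ae (Filter.Eventually.of_forall fun η => ?_)
  simp only [Wof]; ring

private theorem PIE2_rho_le {η1 η2 : ℝ} {χ : ℝ → ℝ} (h : Pc η1 η2 χ) {P : Par} (hP : P.Ok) :
    rho P η2 χ ≤ ((1 - P.δ) * Real.exp (-η2)) * Wm (Wof χ) := by
  rw [PIE2_Wm]
  unfold rho
  have h1 := hP.κ_pos
  have h1' := hP.δ_pos
  have h1'' := hP.δ_lt
  have h2 : 0 ≤ ∫ η, Real.exp (-(2 * |η|)) * Real.exp η * χ η :=
    integral_nonneg fun η => mul_nonneg (by positivity) (h.nonneg η)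
  refine mul_le_mul_of_nonneg_right (mul_le_mul_of_nonneg_right ?_ (Real.exp_pos _).le) h2
  rw [div_le_iff₀ (by linarith)]
  have h3 : 0 < 1 - P.δ := by linarith
  nlinarith [mul_pos h3 h1, mul_pos h3 h1']

/-- a power of `T` -/
private theorem PIE2_pows {T α : ℝ} (hT : 1 ≤ T) (hα : α ∈ Set.Icc 1 (1 + uu)) :
    (T ^ α) ^ (2 * uu) * (T ^ α) ^ (9 / 10 : ℝ) ≤ T := by
  have hT0 : 0 < T := by linarith
  obtain ⟨h1, h2⟩ := hα
  have hu : uu = 1 / 100000 := rfl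
  rw [hu] at h2 ⊢
  have hT1 : T ^ (1 : ℝ) = T := Real.rpow_one T
  rw [← Real.rpow_mul hT0.le, ← Real.rpow_mul hT0.le, ← Real.rpow_add hT0]
  nth_rewrite 2 [← hT1]
  exact Real.rpow_le_rpow_of_exponent_le hT (by nlinarith)

theorem piece2 {ι : Type} [Countable ι] {γ w : ι → ℝ} {F : ℝ → Finset ι} {A : ℝ → ℝ} {k0 : ℝ}
    (Z : Zer γ w F A k0) :
    ∃ (c lam : ℝ) (φ : ℝ → ℝ), 0 < c ∧ PH φ ∧
      ∀ (η1 η2 : ℝ) (χ : ℝ → ℝ) (P : Par) (M : ℝ), Pc η1 η2 χ → P.Ok → P.δ < 1 / 4 → P.ε ≤ uu / 2 →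
        P.cH = 2 * Real.pi * Real.exp η2 / (1 - P.δ) → 0 < M → -M ≤ η1 → η2 ≤ M →
        ∃ C T0 : ℝ, 0 ≤ C ∧ ∀ T, T0 ≤ T → ∀ α ∈ Set.Icc 1 (1 + uu),
          T * (rho P η2 χ * ((3 / 2 - α - P.ε + c) * Real.log T) - C * Real.log (Real.log T) - C)
            ≤ 2 * (∑ i ∈ F T, (w i : ℂ) * PsiF (Fof (b12 φ lam χ M P T α) (α * Real.log T)) (γ i)).re
              - 2 * Real.pi * ∫ ξ, ‖b12 φ lam χ M P T α ξ‖ ^ 2 := by
  obtain ⟨φ, hφ⟩ := exists_PH
  obtain ⟨Cp, hCp, hnrm⟩ := ari_nrm hφ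
  obtain ⟨Cg', x4, hCg', -, hF4⟩ := F4
  obtain ⟨k1, x5, hk1, hkst⟩ := kst_lower Z
  obtain ⟨K0, x6, hK0⟩ := PIE2_kst_upper
  have huu : 0 < uu := Sir_uu_pos
  set I0 : ℝ := ∫ θ, φ θ with hI0d
  have hI0 : 0 < I0 := hφ.pos
  set Cg : ℝ := Cg' + 1 with hCgd
  have hCg : 0 < Cg := by linarith
  set lam : ℝ := I0 * k1 / (Cp * Cg ^ 2) with hlam
  have hlam0 : 0 < lam := by positivity
  refine ⟨uu * lam * I0 * k1, lam, φ, by positivity, hφ, ?_⟩
  intro η1 η2 χ P M h hP hPδ hPε hcH hM hM1 hM2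
  have hW := Wof_WS h hM1 hM2
  have hW0 : ∀ η, 0 ≤ Wof χ η := fun η => mul_nonneg (Real.exp_pos _).le (h.nonneg η)
  obtain ⟨C1, T1, hC1, hp⟩ := piece Z h P hP hcH (b := 1 + uu) (by linarith)
  obtain ⟨T2, hz⟩ := zside2 Z h P hP hM hM1 hM2 hcH hφ
  obtain ⟨T3, hlam3⟩ := ari_lam hφ h hM hM1 hM2 P hP
  obtain ⟨x7, hF2⟩ := F2 Z hM hW hW0
  obtain ⟨x8, hF4'⟩ := hF4 M hM (Wof χ) hW hW0
  obtain ⟨T9, hn⟩ := hnrm η1 η2 χ h M hM hM1 hM2 P hP
  obtain ⟨T10, hcr⟩ := cro Z hφ h hM hM1 hM2 P hP hPδ hPε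
  obtain ⟨T11, hL1⟩ := LL_yy_ge
  have hcH0 := hP.cH_pos
  have hrho0 := PIE2_rho_nonneg h hP
  have hrhoV := PIE2_rho_le h hP
  have hV : 0 ≤ Wm (Wof χ) := integral_nonneg fun η => mul_nonneg (hW0 η) (Real.exp_pos _).le
  set V : ℝ := Wm (Wof χ) with hVd
  have hK00 : 0 ≤ K0 := by
    have h1 := hkst (max x5 x6) (le_max_left _ _)
    have h2 := hK0 (max x5 x6) (le_max_right _ _)
    linarith
  set C2 : ℝ := 8 * Real.pi * lam + 2 * lam + 2 * Real.pi * lam ^ 2 +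
    2 * Real.pi * lam * (2 * I0 * K0 + I0 * k1) / P.cH with hC2
  have hC20 : 0 ≤ C2 := by positivity
  refine ⟨C1 + C2, max (max (max T1 T2) (max T9 T10)) (max (max (max T3 x7) (max x8 x5)) (max (max x6 T11) (Real.exp 1))),
    by positivity, ?_⟩
  intro T hT α hα
  simp only [max_le_iff] at hT
  obtain ⟨⟨⟨hT1, hT2⟩, hT9, hT10⟩, ⟨⟨hT3, hx7⟩, hx8, hx5⟩, ⟨hx6, hT11⟩, hTe⟩ := hT
  have hT0 : 0 < T := lt_of_lt_of_le (Real.exp_pos 1) hTe
  have hT1' : 1 ≤ T := le_trans (Real.one_le_exp (by norm_num)) hTe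
  have hL : 1 ≤ Real.log T := (Real.le_log_iff_exp_le hT0).2 hTe
  have hLL : 0 ≤ Real.log (Real.log T) := Real.log_nonneg hL
  have hxT : T ≤ T ^ α := by
    calc T = T ^ (1 : ℝ) := (Real.rpow_one T).symm
      _ ≤ T ^ α := Real.rpow_le_rpow_of_exponent_le hT1' hα.1
  have hx1 : 1 ≤ T ^ α := hT1'.trans hxT
  have hx0 : 0 < T ^ α := by linarith
  have hh0 : 0 < T ^ (α - 1) := by positivity
  have hh1 : 1 ≤ T ^ (α - 1) := Real.one_le_rpow hT1' (by linarith [hα.1])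
  have hxh : T ^ α = T * T ^ (α - 1) := by
    rw [← Real.rpow_one_add' hT0.le (by linarith [hα.1])]; congr 1; ring
  have q3 := PIE2_pows hT1' hα
  have hHH : HH P T α = P.cH * T ^ (α - 1) := rfl
  have hHge : P.cH ≤ HH P T α := by rw [hHH]; exact le_mul_of_one_le_right hcH0.le hh1
  have hH0 : 0 < HH P T α := lt_of_lt_of_le hcH0 hHge
  -- the facts at `T`
  have a1 := hp T hT1 α hα
  have a2 := hz T hT2 α hα
  have a3 := hlam3 T hT3 α hα.1 hα.2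
  have a4 := hF2 (T ^ α) (hx7.trans hxT)
  have a5 := hF4' (T ^ α) (hx8.trans hxT)
  have a6 := hn T hT9 α hα.1 hα.2
  have a7 := hcr T hT10 α hα.1 hα.2
  have a8 := hL1 T hT11 α hα.1
  have a9 := LL_yy_le hx1
  have a10 := LL_nonneg (yy (T ^ α))
  have a11 := hkst (T ^ α) (hx5.trans hxT)
  have a12 := hK0 (T ^ α) (hx6.trans hxT)
  -- real parts
  set S2 : ℂ := ∑ i ∈ F T, (w i : ℂ) * PsiF (Fof (b2 φ χ M P T α) (α * Real.log T)) (γ i) with hS2
  set Rl : ℂ := psW (Wof χ) M (T ^ α) (fun n => (starRingEnd ℂ) (be2 φ M (T ^ α) (HH P T α) n)) with hRl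
  set cL : ℝ := corr (Wof χ) M (T ^ α) (fun n => ArithmeticFunction.vonMangoldt n) 0 with hcL
  have b1 : 2 * Real.pi * Rl.re - T ≤ S2.re := by
    have h1 := (Complex.abs_re_le_norm _).trans a2
    have h2 := (abs_le.1 h1).1
    have h3 : (S2 - 2 * Real.pi * Rl).re = S2.re - 2 * Real.pi * Rl.re := by
      rw [Complex.sub_re]
      congr 1
      have : (2 * (Real.pi : ℂ)) = ((2 * Real.pi : ℝ) : ℂ) := by push_cast; ring
      rw [this, Complex.re_ofReal_mul]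
    rw [h3] at h2
    linarith
  have b2' : 1 / HH P T α * I0 * cL - T ≤ Rl.re := by
    have h1 := (Complex.abs_re_le_norm _).trans a3
    have h2 := (abs_le.1 h1).1
    rw [Complex.sub_re, Complex.ofReal_re] at h2
    change -T ≤ Rl.re - 1 / HH P T α * I0 * cL at h2
    linarith
  have b3 : (∫ ξ, bP χ P T α ξ * (starRingEnd ℂ) (b2 φ χ M P T α ξ)).re ≤ T :=
    ((Complex.re_le_norm _).trans a7)
  have b4 : corr (Wof χ) M (T ^ α) (fun n => g2 (T ^ α) n) 0 ≤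
      Cg ^ 2 * LL (yy (T ^ α)) * (T ^ α * V + (T ^ α) ^ (9 / 10 : ℝ)) := by
    refine a5.trans ?_
    have h1 : Cg' ^ 2 ≤ Cg ^ 2 := pow_le_pow_left₀ hCg' (by linarith) 2
    gcongr
  have b5 : LL (yy (T ^ α)) * (T ^ α) ^ (9 / 10 : ℝ) ≤ T := by
    refine le_trans ?_ q3
    gcongr
  have b6 : 2 * Real.pi * (T ^ α / HH P T α) = T * ((1 - P.δ) * Real.exp (-η2)) := by
    have hd : (1 - P.δ) ≠ 0 := by linarith [hP.δ_lt]
    rw [hHH, hcH, hxh, Real.exp_neg]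
    have hpi := Real.pi_ne_zero
    have he := (Real.exp_pos η2).ne'
    field_simp
  have key := PIE2_num (u := uu) (lT := Real.log T) (rho := rho P η2 χ) (d := (1 - P.δ) * Real.exp (-η2))
    (V := V) (X := (∫ ξ, bP χ P T α ξ * (starRingEnd ℂ) (b2 φ χ M P T α ξ)).re)
    hI0 hk1 hCp hCg hlam hT0 hcH0 hHge hx0.le hV a10 (by positivity) a11 a12 b1 b2' le_rfl a4 a6 le_rfl b4 b3 a8 b5 b6
    hrho0 hrhoV
  -- the combination
  have hcb := comb (γ := γ) (w := w) (F T) (bP_continuous h P T α) (bP_compact h P T α)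
    (b2_continuous hφ h M P hH0) (b2_compact (φ := φ) h M P T α) lam (α * Real.log T)
  have hb12 : b12 φ lam χ M P T α = fun ξ => bP χ P T α ξ + lam * b2 φ χ M P T α ξ := rfl
  rw [hb12, hcb]
  have e1 : T * (rho P η2 χ * ((3 / 2 - α - P.ε + uu * lam * I0 * k1) * Real.log T) -
      (C1 + C2) * Real.log (Real.log T) - (C1 + C2)) =
      T * (rho P η2 χ * ((3 / 2 - α - P.ε) * Real.log T) - C1 * Real.log (Real.log T) - C1) +
      (T * (rho P η2 χ * (uu * lam * I0 * k1 * Real.log T)) - T * C2) - T * (C2 * Real.log (Real.log T)) := by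
    ring
  have e2 : 0 ≤ T * (C2 * Real.log (Real.log T)) := by positivity
  rw [e1]
  linarith

end H69BG
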